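import Pool.Agent.H93.TN.TargetsB

set_option autoImplicit false

namespace Pool.Agent.H89.TN

open MeasureTheory Set FourierTransform
open Pool.Agent.H93.TN Pool.Agent.H83.LS Pool.Agent.H93.AR Pool.Agent.H54.LS Pool.Agent.H14.LS
open Pool.Agent.H83.AR Pool.Agent.H84.BR Pool.Agent.H84.B2
open scoped ENNReal NNReal

/-- exchange of the blocks as a measurable equivalence -/
noncomputable def swe (hJM : T_JM) (a b : ℕ) : EE (a + b) ≃ᵐ EE (b + a) where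
  toFun := sw a b
  invFun := sw b a
  left_inv := fun x => ((hJM a b).2.2.2.2.2.2.2.2.2.2.2.2.1 x).1
  right_inv := fun x => ((hJM b a).2.2.2.2.2.2.2.2.2.2.2.2.1 x).1
  measurable_toFun := (hJM a b).2.2.2.2.2.2.2.1.measurable
  measurable_invFun := (hJM b a).2.2.2.2.2.2.2.1.measurable

theorem emb_sw (hJM : T_JM) (a b : ℕ) : MeasurableEmbedding (sw a b) :=
  (swe hJM a b).measurableEmbedding

theorem mp_sw (hJM : T_JM) (a b : ℕ) : MeasurePreserving (sw a b) volume volume :=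
  (hJM a b).2.2.2.2.2.2.2.2.2.2.2.1

theorem sw_facts (hJM : T_JM) (a b : ℕ) (x : EE (a + b)) :
    sw b a (sw a b x) = x ∧ ‖sw a b x‖ = ‖x‖ ∧
      p1 b a (sw a b x) = p2 a b x ∧ p2 b a (sw a b x) = p1 a b x :=
  (hJM a b).2.2.2.2.2.2.2.2.2.2.2.2.1 x

theorem mB_sw (hJM : T_JM) (a b : ℕ) (c₁ c₂ : ℝ → ℝ) (κ₁ : EE a → ℂ) (κ₂ : EE b → ℂ) (lam t : ℝ)
    (ξ : EE (b + a)) :
    mB b a c₂ c₁ κ₂ κ₁ lam t ξ = mB a b c₁ c₂ κ₁ κ₂ lam t (sw b a ξ) := by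
  obtain ⟨-, h2, h3, h4⟩ := sw_facts hJM b a ξ
  unfold mB mc mT
  rw [h2, h3, h4]
  push_cast
  ring

theorem pf_bnm (hBND : T_BND) (hSWF : Pool.Agent.H83.AR.T_SWF) (hJM : Pool.Agent.H83.AR.T_JM) :
    T_BNM := by
  intro a b q η ha hb hq2 hq3 hη
  obtain ⟨C, hC⟩ := hBND b a q η hb ha hq2 hq3 hη
  refine ⟨C, ?_⟩
  intro lam Lam₁ Lam₂ A c₁ c₂ κ₁ κ₂ u w g hlam hw hL1 hL2 hc₂ hκ₂ hBS hg
  have hG : BI A (fun x : EE (b + a) => g (sw b a x)) := by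
    obtain ⟨g1, g2, g3⟩ := hg
    refine ⟨g1.comp (mp_sw hJM b a).measurable, ?_, fun x => g3 _⟩
    exact (mp_sw hJM b a).integrable_comp_emb (emb_sw hJM b a) |>.2 g2
  obtain ⟨h1, h2⟩ := hC lam Lam₂ Lam₁ A c₂ c₁ κ₂ κ₁ w u _ hlam hw hL1 hL2 hc₂ hκ₂ hBS hG
  have hMM : ∀ (t : ℝ) (x : EE (b + a)),
      MM (mB b a c₂ c₁ κ₂ κ₁ lam t) (fun x : EE (b + a) => g (sw b a x)) x =
        MM (mB a b c₁ c₂ κ₁ κ₂ lam t) g (sw b a x) := by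
    intro t x
    rw [← (hSWF a b g ha hb hg.1 hg.2.1).2.1 (mB a b c₁ c₂ κ₁ κ₂ lam t) x]
    congr 1
    funext ξ
    exact mB_sw hJM a b c₁ c₂ κ₁ κ₂ lam t ξ
  have hg2 : ∫⁻ x : EE (b + a), ‖g (sw b a x)‖ₑ ^ 2 = ∫⁻ x : EE (a + b), ‖g x‖ₑ ^ 2 :=
    (mp_sw hJM b a).lintegral_comp_emb (emb_sw hJM b a) (fun x => ‖g x‖ₑ ^ 2)
  refine ⟨?_, ?_⟩
  · have h3 : ∀ t : ℝ, ∫⁻ x : EE (b + a), ‖MM (mB b a c₂ c₁ κ₂ κ₁ lam t)
        (fun x : EE (b + a) => g (sw b a x)) x‖ₑ ^ q =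
        ∫⁻ x : EE (a + b), ‖MM (mB a b c₁ c₂ κ₁ κ₂ lam t) g x‖ₑ ^ q := by
      intro t
      simp_rw [hMM]
      exact (mp_sw hJM b a).lintegral_comp_emb (emb_sw hJM b a)
        (fun x => ‖MM (mB a b c₁ c₂ κ₁ κ₂ lam t) g x‖ₑ ^ q)
    simp_rw [h3] at h1
    rw [hg2] at h1
    exact h1
  · intro σ hσ
    have h4 := h2 σ hσ
    have h3 : ∀ t : ℝ, ∫⁻ x : EE (b + a) in {x : EE (b + a) | |inner ℝ (p1 b a x) w| ≤ σ},
        ‖MM (mB b a c₂ c₁ κ₂ κ₁ lam t) (fun x : EE (b + a) => g (sw b a x)) x‖ₑ ^ q =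
        ∫⁻ x : EE (a + b) in {x : EE (a + b) | |inner ℝ (p2 a b x) w| ≤ σ},
          ‖MM (mB a b c₁ c₂ κ₁ κ₂ lam t) g x‖ₑ ^ q := by
      intro t
      simp_rw [hMM]
      have hset : {x : EE (b + a) | |inner ℝ (p1 b a x) w| ≤ σ} =
          sw b a ⁻¹' {x : EE (a + b) | |inner ℝ (p2 a b x) w| ≤ σ} := by
        ext x
        simp only [Set.mem_ofPred_eq, mem_preimage]
        rw [(sw_facts hJM b a x).2.2.2]
      rw [hset]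
      exact (mp_sw hJM b a).setLIntegral_comp_preimage_emb (emb_sw hJM b a)
        (fun x => ‖MM (mB a b c₁ c₂ κ₁ κ₂ lam t) g x‖ₑ ^ q) _
    simp_rw [h3] at h4
    rw [hg2] at h4
    exact h4

end Pool.Agent.H89.TN
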